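import Pool.Agent.Helper73.HV.St
import Pool.Agent.Helper86.HU.PF

/-! # HV module FN: the image ultrafilter is fine -/

namespace Pool.Agent.Helper4.HV.FN

open Ordinal Cardinal ZFSet Order Pool.Agent.Helper73.HODC Pool.Agent.Helper73.HE
open Pool.Agent.Helper73.HM Pool.Agent.Helper73.HU Pool.Agent.Helper73.HV
open Pool.Agent.Helper86.HU.PF

theorem st_bdd (x : ZFSet.{0}) (a : Ordinal.{0}) (ha : a ∈ st x) : a < x.rank := by
  obtain ⟨z, hz, rfl⟩ := ha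
  exact rank_lt_of_mem hz

theorem otpLt_iff_code (x : ZFSet.{0}) (τ : Ordinal.{0}) :
    OtpLt (st x) τ ↔ ∃ ζ : Ordinal.{0}, ζ < τ ∧ ∃ z : ZFSet.{0},
      (∀ a, a ∈ st x → ∃ c, Pool.Agent.Helper73.HODC.fn z a = c ∧ c < ζ) ∧
      ∀ a, ∀ b, (a ∈ st x ∧ b ∈ st x ∧ a < b) →
        ∃ c, ∃ d, Pool.Agent.Helper73.HODC.fn z a = c ∧ Pool.Agent.Helper73.HODC.fn z b = d ∧ c < d := by
  constructor
  · rintro ⟨ζ, hζ, g, h1, h2⟩
    obtain ⟨z, hz, -⟩ := exists_fn g x.rank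
    refine ⟨ζ, hζ, z, fun a ha => ⟨_, rfl, ?_⟩, ?_⟩
    · rw [hz a (st_bdd x a ha)]; exact h1 a ha
    · rintro a b ⟨ha, hb, hab⟩
      refine ⟨_, _, rfl, rfl, ?_⟩
      rw [hz a (st_bdd x a ha), hz b (st_bdd x b hb)]
      exact h2 a ha b hb hab
  · rintro ⟨ζ, hζ, z, h1, h2⟩
    refine ⟨ζ, hζ, Pool.Agent.Helper73.HODC.fn z, fun a ha => ?_, fun a ha b hb hab => ?_⟩
    · obtain ⟨c, hc, hc'⟩ := h1 a ha
      rw [hc]; exact hc'
    · obtain ⟨c, d, hc, hd, hcd⟩ := h2 a b ⟨ha, hb, hab⟩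
      rw [hc, hd]; exact hcd

theorem dp_otpLt (τ : Ordinal.{0}) (i : ℕ) : DP (fun v => OtpLt (st (v i)) τ) := by
  refine DP.congr (Q := fun v => ∃ ζ : Ordinal.{0}, ζ < τ ∧ ∃ z : ZFSet.{0},
      (∀ a, a ∈ st (v i) → ∃ c, Pool.Agent.Helper73.HODC.fn z a = c ∧ c < ζ) ∧
      ∀ a, ∀ b, (a ∈ st (v i) ∧ b ∈ st (v i) ∧ a < b) →
        ∃ c, ∃ d, Pool.Agent.Helper73.HODC.fn z a = c ∧ Pool.Agent.Helper73.HODC.fn z b = d ∧ c < d) ?_ (fun v => otpLt_iff_code (v i) τ)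
  refine DP.exO (Q := fun ζ v => ζ < τ ∧ ∃ z : ZFSet.{0},
      (∀ a, a ∈ st (v i) → ∃ c, Pool.Agent.Helper73.HODC.fn z a = c ∧ c < ζ) ∧
      ∀ a, ∀ b, (a ∈ st (v i) ∧ b ∈ st (v i) ∧ a < b) →
        ∃ c, ∃ d, Pool.Agent.Helper73.HODC.fn z a = c ∧ Pool.Agent.Helper73.HODC.fn z b = d ∧ c < d) ?_
  refine (DP.rank_lt_ord 0 τ).and ?_
  refine DP.ex (Q := fun z v =>
      (∀ a, a ∈ st (v (i + 1)) → ∃ c, Pool.Agent.Helper73.HODC.fn z a = c ∧ c < (v 0).rank) ∧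
      ∀ a, ∀ b, (a ∈ st (v (i + 1)) ∧ b ∈ st (v (i + 1)) ∧ a < b) →
        ∃ c, ∃ d, Pool.Agent.Helper73.HODC.fn z a = c ∧ Pool.Agent.Helper73.HODC.fn z b = d ∧ c < d) ?_
  refine DP.and ?_ ?_
  · refine DP.allO (Q := fun a v => a ∈ st (v (i + 2)) →
      ∃ c, Pool.Agent.Helper73.HODC.fn (v 0) a = c ∧ c < (v 1).rank) ?_
    refine (DP.st 0 (i + 3)).imp ?_
    refine DP.exO (Q := fun c v => Pool.Agent.Helper73.HODC.fn (v 1) (v 0).rank = c ∧ c < (v 2).rank) ?_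
    exact (DP.fn 2 1 0).and (DP.rank_lt 0 3)
  · refine DP.allO (Q := fun a v => ∀ b, (a ∈ st (v (i + 2)) ∧ b ∈ st (v (i + 2)) ∧ a < b) →
        ∃ c, ∃ d, Pool.Agent.Helper73.HODC.fn (v 0) a = c ∧ Pool.Agent.Helper73.HODC.fn (v 0) b = d ∧ c < d) ?_
    refine DP.allO (Q := fun b v => ((v 0).rank ∈ st (v (i + 3)) ∧ b ∈ st (v (i + 3)) ∧
        (v 0).rank < b) → ∃ c, ∃ d, Pool.Agent.Helper73.HODC.fn (v 1) (v 0).rank = c ∧ Pool.Agent.Helper73.HODC.fn (v 1) b = d ∧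
          c < d) ?_
    refine ((DP.st 1 (i + 4)).and ((DP.st 0 (i + 4)).and (DP.rank_lt 1 0))).imp ?_
    refine DP.exO (Q := fun c v => ∃ d, Pool.Agent.Helper73.HODC.fn (v 2) (v 1).rank = c ∧
      Pool.Agent.Helper73.HODC.fn (v 2) (v 0).rank = d ∧ c < d) ?_
    refine DP.exO (Q := fun d v => Pool.Agent.Helper73.HODC.fn (v 3) (v 2).rank = (v 0).rank ∧
      Pool.Agent.Helper73.HODC.fn (v 3) (v 1).rank = d ∧ (v 0).rank < d) ?_
    exact (DP.fn 4 3 1).and ((DP.fn 4 2 0).and (DP.rank_lt 1 0))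

/-- the small subset of `τ` given by `a` -/
noncomputable def xx (τ : Ordinal.{0}) (R : Ordinal.{0} → Ordinal.{0} → Prop) (a : Ordinal.{0}) :
    ZFSet.{0} := ordSet τ {i | R a i}

section
variable {δ τ : Ordinal.{0}} {ρ : Cardinal.{0}} {U : ZFSet.{0}}
  {R : Ordinal.{0} → Ordinal.{0} → Prop}

theorem dp_xx (hR : DP (fun v => R (v 0).rank (v 1).rank)) :
    DP (fun v => v 0 = xx τ R (v 1).rank) := by
  refine (DP.all (Q := fun z v => z ∈ v 0 ↔ (z = z.rank.toZFSet ∧ (z.rank < τ ∧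
    R (v 1).rank z.rank))) ?_).congr fun v => ?_
  · exact (DP.mem 0 1).iff ((DP.isOrd 0).and ((DP.rank_lt_ord 0 τ).and
      (hR.rename (fun n => if n = 0 then 2 else 0))))
  · rw [ZFSet.ext_iff]
    refine forall_congr' fun z => iff_congr Iff.rfl ?_
    rw [xx, mem_ordSet]
    constructor
    · rintro ⟨a, h1, h2, rfl⟩
      rw [rank_toZFSet]
      exact ⟨rfl, h1, h2⟩
    · rintro ⟨h0, h1, h2⟩
      exact ⟨_, h1, h2, h0⟩

theorem dp_xx' (hR : DP (fun v => R (v 0).rank (v 1).rank)) (i j : ℕ) :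
    DP (fun v => v i = xx τ R (v j).rank) :=
  (dp_xx hR).rename (fun n => if n = 0 then i else j)

theorem xx_sub (a : Ordinal.{0}) : xx τ R a ⊆ τ.toZFSet := ordSet_sub _ _

theorem st_xx (a : Ordinal.{0}) : st (xx τ R a) = {i | i < τ ∧ R a i} := by
  ext i
  exact mem_st_ordSet

theorem dps_sec (hR : DP (fun v => R (v 0).rank (v 1).rank)) (a : Ordinal.{0}) :
    DPs {i | R a i} :=
  dp_subst_at (Q := fun x v => R x (v 0).rank) hR a

theorem xx_mem (hR : DP (fun v => R (v 0).rank (v 1).rank)) (a : Ordinal.{0}) :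
    xx τ R a ∈ hodPow τ := Pool.Agent.Helper29.HM.NM.ordSet_mem (dps_sec hR a) τ

/-- preimages of definable classes under `xx` -/
theorem dps_prx (hR : DP (fun v => R (v 0).rank (v 1).rank)) {Q : ZFSet.{0} → Prop}
    (hQ : DP (fun v => Q (v 0))) : DPs {a | Q (xx τ R a)} := by
  refine (DP.ex (Q := fun z v => z = xx τ R (v 0).rank ∧ Q z)
    ((dp_xx' hR 0 1).and hQ)).congr fun v => ?_
  constructor
  · intro h
    exact ⟨_, rfl, h⟩
  · rintro ⟨z, rfl, h⟩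
    exact h

theorem mem_small {x : ZFSet.{0}} : x ∈ hodSmall δ τ ↔ x ∈ hodPow τ ∧ OtpLt (st x) δ :=
  ZFSet.mem_sep

theorem dp_small (h : StHP) (i : ℕ) : DP (fun v => v i ∈ hodSmall δ τ) := by
  refine DP.congr (Q := fun v => v i ∈ hodPow τ ∧ OtpLt (st (v i)) δ) ?_ fun v => mem_small
  exact (dp_subst_at (Q := fun x v => v i ∈ hodPow x) (DP.of (h.2 (i + 1) 0)) τ).and
    (dp_otpLt δ i)

theorem hod_small {x : ZFSet.{0}} (hx : x ∈ hodSmall δ τ) : HOD x := by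
  have h1 := mem_hodPow.1 (mem_small.1 hx).1
  exact hod_of_sub h1.1 h1.2

theorem hod_sep (h : StHP) {Q : ZFSet.{0} → Prop} (hQ : DP (fun v => Q (v 0))) :
    HOD (ZFSet.sep Q (hodSmall δ τ)) := by
  refine HOD.intro _ (DP.od ?_) fun y hy => hod_small (ZFSet.mem_sep.1 hy).1
  refine (DP.all (Q := fun z v => z ∈ v 0 ↔ (z ∈ hodSmall δ τ ∧ Q z)) ?_).congr fun v => ?_
  · exact (DP.mem 0 1).iff ((dp_small h 0).and hQ)
  · rw [ZFSet.ext_iff]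
    exact forall_congr' fun z => iff_congr Iff.rfl ZFSet.mem_sep

theorem dp_memH {X : ZFSet.{0}} (hX : HOD X) : DP (fun v => v 0 ∈ X) :=
  dp_subst_HOD (Q := fun x v => v 0 ∈ x) (DP.mem 1 0) hX

/-- the relation `z ∈ F ξ`, `ξ < γ` -/
theorem dp_F {γ : Ordinal.{0}} {F : Ordinal.{0} → ZFSet.{0}} (hF : HOD (gr γ F)) :
    DP (fun v => (v 0).rank < γ ∧ v 1 ∈ F (v 0).rank) := by
  have h1 : DP (fun v => ∃ u : ZFSet.{0}, ∃ w : ZFSet.{0}, (u = u.rank.toZFSet ∧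
      u.rank = (v 1).rank) ∧ ZFSet.pair u w ∈ v 0 ∧ v 2 ∈ w) := by
    refine DP.ex (Q := fun u v => ∃ w : ZFSet.{0}, (u = u.rank.toZFSet ∧
      u.rank = (v 1).rank) ∧ ZFSet.pair u w ∈ v 0 ∧ v 2 ∈ w) ?_
    refine DP.ex (Q := fun w v => (v 0 = (v 0).rank.toZFSet ∧
      (v 0).rank = (v 2).rank) ∧ ZFSet.pair (v 0) w ∈ v 1 ∧ v 3 ∈ w) ?_
    exact ((DP.isOrd 1).and (DP.rank_eq 1 3)).and
      ((DP.of (dfn_pair_mem 1 0 2)).and (DP.mem 4 0))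
  refine (dp_subst_HOD (Q := fun x v => ∃ u : ZFSet.{0}, ∃ w : ZFSet.{0},
    (u = u.rank.toZFSet ∧ u.rank = (v 0).rank) ∧ ZFSet.pair u w ∈ x ∧ v 1 ∈ w)
    h1 hF).congr fun v => ?_
  constructor
  · rintro ⟨h2, h3⟩
    exact ⟨_, F (v 0).rank, ⟨by rw [rank_toZFSet], rank_toZFSet _⟩,
      mem_gr.2 ⟨_, h2, rfl⟩, h3⟩
  · rintro ⟨u, w, ⟨hu, hu'⟩, h2, h3⟩
    obtain ⟨ξ, hξ, h4⟩ := mem_gr.1 h2
    obtain ⟨h5, rfl⟩ := pair_inj.1 h4
    have h6 : (v 0).rank = ξ := by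
      rw [← hu', h5, rank_toZFSet]
    rw [h6]
    exact ⟨hξ, h3⟩

end

theorem thm_fn (h : StHP) : StFN := by
  intro δ τ ρ U R hU hρ hR hX hi
  -- the index set
  have hPD : DPs {a | xx τ R a ∈ hodSmall δ τ} := dps_prx hR (dp_small h 0)
  have hPU : ordSet τ {a | xx τ R a ∈ hodSmall δ τ} ∈ U := by
    obtain ⟨X, hXU, hX⟩ := hX
    have hXs := (mem_hodPow.1 (hU.sub X hXU)).1
    refine hU.up X hXU _ (Pool.Agent.Helper29.HM.NM.ordSet_mem hPD τ) fun z hz => ?_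
    obtain ⟨a, ha, rfl⟩ := mem_toZFSet_iff.1 (hXs hz)
    refine (mem_ordSet _ _ _).2 ⟨a, ha, mem_small.2 ⟨xx_mem hR a, ?_⟩, rfl⟩
    rw [st_xx]
    exact hX a ((mem_st_iff hXs).2 hz)
  have hmem : ∀ X, X ∈ ZFSet.sep (fun X => HOD X ∧ ordSet τ {a | xx τ R a ∈ X} ∈ U)
      (ZFSet.powerset (hodSmall δ τ)) ↔
      X ⊆ hodSmall δ τ ∧ HOD X ∧ ordSet τ {a | xx τ R a ∈ X} ∈ U := fun X => by
    rw [ZFSet.mem_sep, ZFSet.mem_powerset]
  have hpre : ∀ X, HOD X → DPs {a | xx τ R a ∈ X} := fun X hX => dps_prx hR (dp_memH hX)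
  refine ⟨ZFSet.sep (fun X => HOD X ∧ ordSet τ {a | xx τ R a ∈ X} ∈ U)
      (ZFSet.powerset (hodSmall δ τ)), ?_, ?_, ?_, ?_, ?_, ?_⟩
  · -- hod
    refine HOD.intro _ (DP.od ?_) fun y hy => ((hmem y).1 hy).2.1
    refine (DP.all (Q := fun z v => z ∈ v 0 ↔ ((∀ t : ZFSet.{0}, t ∈ z → t ∈ hodSmall δ τ) ∧
      OD z ∧ ∃ y : ZFSet.{0}, y ∈ U ∧ ∀ a : Ordinal.{0}, a ∈ st y ↔
        (a < τ ∧ ∃ w : ZFSet.{0}, w = xx τ R a ∧ w ∈ z))) ?_).congr ?_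
    · refine (DP.mem 0 1).iff (DP.and ?_ ((DP.of (h.1 0)).and ?_))
      · refine DP.all (Q := fun t v => t ∈ v 0 → t ∈ hodSmall δ τ) ?_
        exact (DP.mem 0 1).imp (dp_small h 0)
      · refine DP.ex (Q := fun y v => y ∈ U ∧ ∀ a : Ordinal.{0}, a ∈ st y ↔
          (a < τ ∧ ∃ w : ZFSet.{0}, w = xx τ R a ∧ w ∈ v 0)) ?_
        refine (dp_memH hU.hod).and ?_
        refine DP.allO (Q := fun a v => a ∈ st (v 0) ↔
          (a < τ ∧ ∃ w : ZFSet.{0}, w = xx τ R a ∧ w ∈ v 1)) ?_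
        refine (DP.st 0 1).iff ((DP.rank_lt_ord 0 τ).and ?_)
        refine DP.ex (Q := fun w v => w = xx τ R (v 0).rank ∧ w ∈ v 2) ?_
        exact (dp_xx' hR 0 1).and (DP.mem 0 3)
    · intro v
      rw [ZFSet.ext_iff]
      refine forall_congr' fun z => iff_congr Iff.rfl ?_
      rw [hmem z]
      constructor
      · rintro ⟨h1, h2, h3⟩
        refine ⟨fun t ht => h1 ht, HOD.od h2, _, h3, fun a => ?_⟩
        rw [mem_st_ordSet]
        refine and_congr_right fun _ => ?_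
        exact ⟨fun h2 => ⟨_, rfl, h2⟩, by rintro ⟨b, rfl, h2⟩; exact h2⟩
      · rintro ⟨h1, h2, y, hy, h3⟩
        refine ⟨fun t ht => h1 t ht, HOD.intro _ h2 fun t ht => hod_small (h1 t ht), ?_⟩
        have h4 : y = ordSet τ {a | xx τ R a ∈ z} := by
          refine ext_st (mem_hodPow.1 (hU.sub y hy)).1 (ordSet_sub _ _) fun a => ?_
          rw [h3, mem_st_ordSet]
          refine and_congr_right fun _ => ?_
          exact ⟨by rintro ⟨b, rfl, h2⟩; exact h2, fun h2 => ⟨_, rfl, h2⟩⟩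
        rw [← h4]
        exact hy
  · -- sub
    intro X hX
    exact ((hmem X).1 hX).1
  · -- up
    intro X hX Y hY hYs hXY
    obtain ⟨h1, h2, h3⟩ := (hmem X).1 hX
    exact (hmem Y).2 ⟨hYs, hY, mono_mem hU (hpre Y hY) h3 fun a _ ha =>
      hXY (show xx τ R a ∈ X from ha)⟩
  · -- ultra
    intro X hX hXs
    have hd : HOD (hodSmall δ τ \ X) := by
      have h1 : hodSmall δ τ \ X = ZFSet.sep (fun z => z ∉ X) (hodSmall δ τ) := by
        ext z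
        rw [ZFSet.mem_sdiff, ZFSet.mem_sep]
      rw [h1]
      exact hod_sep h (dp_memH hX).not
    have hds : hodSmall δ τ \ X ⊆ hodSmall δ τ := fun z hz => (ZFSet.mem_sdiff.1 hz).1
    rw [hmem, hmem]
    constructor
    · rintro ⟨-, -, h1⟩ ⟨-, -, h2⟩
      have h3 := inter_mem' hU hρ (hpre X hX) (hpre _ hd) h1 h2
      obtain ⟨a, -, h4, h5⟩ := exists_of_mem hU (dps_and (hpre X hX) (hpre _ hd)) h3
      have h4' : xx τ R a ∈ X := h4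
      have h5' : xx τ R a ∈ hodSmall δ τ \ X := h5
      exact (ZFSet.mem_sdiff.1 h5').2 h4'
    · intro h1
      refine ⟨hXs, hX, ?_⟩
      by_contra h2
      have h3 : ordSet τ {a | xx τ R a ∈ X}ᶜ ∈ U := by
        by_contra h4
        exact h2 ((compl_mem hU (hpre X hX)).2 h4)
      have h4 := inter_mem' hU hρ (dps_compl (hpre X hX)) hPD h3 hPU
      refine h1 ⟨hds, hd, mono_mem hU (hpre _ hd) h4 fun a _ ha => ?_⟩
      have ha1 : xx τ R a ∉ X := ha.1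
      have ha2 : xx τ R a ∈ hodSmall δ τ := ha.2
      show xx τ R a ∈ hodSmall δ τ \ X
      exact ZFSet.mem_sdiff.2 ⟨ha2, ha1⟩
  · -- fine
    intro i hiτ
    have hQ : DP (fun v => i ∈ st (v 0)) :=
      dp_subst_at (Q := fun x v => x ∈ st (v 0)) (DP.st 0 1) i
    have hH : HOD (ZFSet.sep (fun x => i ∈ st x) (hodSmall δ τ)) := hod_sep h hQ
    rw [hmem]
    refine ⟨fun z hz => (ZFSet.mem_sep.1 hz).1, hH, ?_⟩
    have hRi : DPs {a | R a i} := by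
      have h1 : DP (fun v => R (v 1).rank (v 0).rank) :=
        hR.rename (fun n => if n = 0 then 1 else 0)
      exact dp_subst_at (Q := fun x v => R (v 0).rank x) h1 i
    have h1 := inter_mem' hU hρ hRi hPD (hi i hiτ) hPU
    refine mono_mem hU (hpre _ hH) h1 fun a _ ha => ?_
    have ha2 : xx τ R a ∈ hodSmall δ τ := ha.2
    show xx τ R a ∈ ZFSet.sep (fun x => i ∈ st x) (hodSmall δ τ)
    refine ZFSet.mem_sep.2 ⟨ha2, ?_⟩
    rw [st_xx]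
    exact ⟨hiτ, ha.1⟩
  · -- complete
    intro γ hγ F hF hFW
    have hrel := dp_F hF
    have hrel' : DP (fun v => (v 0).rank < γ ∧ (v 1).rank < τ ∧
        (v 1).rank ∈ {a | xx τ R a ∈ F (v 0).rank}) := by
      have h1 : DP (fun v => ∃ z : ZFSet.{0}, z = xx τ R (v 1).rank ∧
          ((v 0).rank < γ ∧ z ∈ F (v 0).rank)) := by
        refine DP.ex (Q := fun z v => z = xx τ R (v 1).rank ∧
          ((v 0).rank < γ ∧ z ∈ F (v 0).rank)) ?_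
        exact (dp_xx' hR 0 2).and (hrel.rename (fun n => if n = 0 then 1 else 0))
      refine ((DP.rank_lt_ord 1 τ).and h1).congr fun v => ?_
      constructor
      · rintro ⟨h2, h3, h4⟩
        exact ⟨h3, _, rfl, h2, h4⟩
      · rintro ⟨h2, z, rfl, h3, h4⟩
        exact ⟨h3, h2, h4⟩
    have h1 := hU.complete γ hγ (fun ξ => {a | xx τ R a ∈ F ξ})
      (HOD_seqSet _ _ _ ((odRel_iff_DP _).2 hrel')) (fun ξ hξ => ((hmem _).1 (hFW ξ hξ)).2.2)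
    have hQ : DP (fun v => ∀ ξ : Ordinal.{0}, ξ < γ → v 0 ∈ F ξ) := by
      have h2 : DP (fun v => ∀ ξ : Ordinal.{0}, ξ < γ → (ξ < γ ∧ v 0 ∈ F ξ)) := by
        refine DP.allO (Q := fun ξ v => ξ < γ → (ξ < γ ∧ v 0 ∈ F ξ)) ?_
        exact (DP.rank_lt_ord 0 γ).imp hrel
      refine h2.congr fun v => ?_
      exact ⟨fun h3 ξ hξ => ⟨hξ, h3 ξ hξ⟩, fun h3 ξ hξ => (h3 ξ hξ).2⟩
    have hH : HOD (ZFSet.sep (fun x => ∀ ξ < γ, x ∈ F ξ) (hodSmall δ τ)) := hod_sep h hQ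
    have hD2 : DPs {a | ∀ ξ < γ, xx τ R a ∈ F ξ} := 
      dps_prx (Q := fun z => ∀ ξ : Ordinal.{0}, ξ < γ → z ∈ F ξ) hR hQ
    rw [hmem]
    refine ⟨fun z hz => (ZFSet.mem_sep.1 hz).1, hH, ?_⟩
    have h3 := inter_mem' hU hρ hPD hD2 hPU h1
    refine mono_mem hU (hpre _ hH) h3 fun a _ ha => ?_
    show xx τ R a ∈ ZFSet.sep (fun x => ∀ ξ < γ, x ∈ F ξ) (hodSmall δ τ)
    exact ZFSet.mem_sep.2 ⟨ha.1, ha.2⟩

end Pool.Agent.Helper4.HV.FN
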